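import Pool.Agent.Helper70.KN.Goals4

/-!
# Project KN (MP_20ee5e_ag), packet LC (helper91): layer cake for `1 - ρ` over the cylinder
-/

open MeasureTheory Set

namespace Pool.Agent.Helper91.KN.LC

open Pool.Agent.Helper70.KN

variable {N : ℕ}

theorem zr_cont (J : Finset (Fin N)) : Continuous (zr J : (Fin N → ℝ) → Fin N → ℝ) := by
  apply continuous_pi
  intro i
  unfold zr
  by_cases h : i ∈ J
  · simp only [h, if_true]
    exact continuous_const
  · simp only [h, if_false]
    exact continuous_apply i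

theorem zr_nonneg (J : Finset (Fin N)) (x : Fin N → ℝ) (hx : 0 ≤ x) : 0 ≤ zr J x := by
  intro i
  unfold zr
  by_cases h : i ∈ J
  · simp [h]
  · simp only [h, if_false]
    exact hx i

/-- the scaling -/
noncomputable def DD (J : Finset (Fin N)) (l : ℝ) (i : Fin N) : ℝ := if i ∈ J then 1 else l

theorem prod_DD (J : Finset (Fin N)) (l : ℝ) : ∏ i, DD J l i = l ^ (N - J.card) := by
  unfold DD
  rw [Finset.prod_ite, Finset.prod_const_one, one_mul, Finset.prod_const]
  congr 1
  rw [← Finset.compl_filter]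
  rw [Finset.card_compl, Fintype.card_fin]
  congr 1
  congr 1
  ext i
  simp

theorem zr_DD (J : Finset (Fin N)) (l : ℝ) (x : Fin N → ℝ) :
    zr J (fun i => DD J l i * x i) = fun i => l * zr J x i := by
  funext i
  unfold zr DD
  by_cases h : i ∈ J
  · simp [h]
  · simp [h]

theorem vol_sub (hMF : S_MF) (hSC : S_SC) (hRH : S_RH) (V : Finset (Fin N → ℕ))
    (L : Set (Fin N → ℝ)) (ω : ℝ) (hC : Cut V L ω) (J : Finset (Fin N)) (l : ℝ) (hl : 0 < l)
    (hl1 : l ≤ 1) : volume (cyl V J ∩ {x | rho L (zr J x) < l}) =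
      ENNReal.ofReal (l ^ (N - J.card)) * volume (cyl V J) := by
  obtain ⟨-, -, r3, r4, -, r6, r7⟩ := hRH N V L ω hC
  obtain ⟨m1, -, -⟩ := hMF N V hC.1 J
  have hm : MeasurableSet (cyl V J ∩ {x | rho L (zr J x) < l}) := by
    apply m1.inter
    exact ((r7.comp (zr_cont J)).measurable) measurableSet_Iio
  rw [hSC N _ (DD J l) hm (fun i => by unfold DD; split_ifs <;> [norm_num; exact hl]), prod_DD]
  congr 2
  ext x
  simp only [mem_setOf_eq, mem_inter_iff]
  have hz : rho L (zr J (fun i => DD J l i * x i)) = l * rho L (zr J x) := by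
    rw [zr_DD, r4 _ _ hl.le]
  have hpos : (0 : Fin N → ℝ) ≤ (fun i => DD J l i * x i) ↔ 0 ≤ x := by
    constructor
    · intro h i
      have h1 := h i
      simp only [Pi.zero_apply] at h1 ⊢
      unfold DD at h1
      split_ifs at h1
      · linarith
      · exact nonneg_of_mul_nonneg_right h1 hl
    · intro h i
      have h1 := h i
      simp only [Pi.zero_apply] at h1 ⊢
      unfold DD
      split_ifs
      · linarith
      · positivity
  unfold cyl
  simp only [mem_setOf_eq]
  rw [hz, hpos]
  constructor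
  · rintro ⟨⟨h1, h2, h3⟩, h4⟩
    refine ⟨h1, ?_, ?_⟩
    · intro j hj
      have := h2 j hj
      simpa [DD, hj] using this
    · rw [r3 _ (zr_nonneg J x h1), not_le]
      by_contra hc
      push Not at hc
      nlinarith
  · rintro ⟨h1, h2, h3⟩
    rw [r3 _ (zr_nonneg J x h1), not_le] at h3
    have h5 : l * rho L (zr J x) < l := by nlinarith
    refine ⟨⟨h1, ?_, ?_⟩, h5⟩
    · intro j hj
      have := h2 j hj
      simpa [DD, hj] using this
    · rw [r3 _ (zr_nonneg J _ (hpos.2 h1)), hz, not_le]
      linarith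

theorem t (hMF : S_MF) (hSC : S_SC) (hRH : S_RH) : S_LC := by
  intro N V L ω hC J
  obtain ⟨-, -, r3, r4, -, r6, r7⟩ := hRH N V L ω hC
  obtain ⟨m1, m2, -⟩ := hMF N V hC.1 J
  have hJ : J.card ≤ N := by
    have := Finset.card_le_univ J
    rwa [Fintype.card_fin] at this
  set μ : Measure (Fin N → ℝ) := volume.restrict (cyl V J) with hμ
  have hmeas : Measurable (fun x : Fin N → ℝ => 1 - rho L (zr J x)) :=
    (continuous_const.sub (r7.comp (zr_cont J))).measurable
  have hnn : 0 ≤ᵐ[μ] (fun x : Fin N → ℝ => 1 - rho L (zr J x)) := by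
    rw [hμ]
    refine (ae_restrict_iff' m1).2 (Filter.Eventually.of_forall fun x hx => ?_)
    obtain ⟨h1, -, h3⟩ := hx
    rw [r3 _ (zr_nonneg J x h1), not_le] at h3
    simp only [Pi.zero_apply]
    linarith
  rw [lintegral_eq_lintegral_meas_lt μ hnn hmeas.aemeasurable]
  have hF : ∀ s ∈ Ioi (0 : ℝ), μ {a | s < 1 - rho L (zr J a)} =
      (Ioo (0 : ℝ) 1).indicator (fun s => ENNReal.ofReal ((1 - s) ^ (N - J.card)) * volume (cyl V J)) s := by
    intro s hs
    rw [mem_Ioi] at hs
    by_cases h1 : s < 1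
    · rw [indicator_of_mem (show s ∈ Ioo (0 : ℝ) 1 from ⟨hs, h1⟩), hμ,
        Measure.restrict_apply (measurableSet_lt measurable_const hmeas)]
      rw [← vol_sub hMF hSC hRH V L ω hC J (1 - s) (by linarith) (by linarith)]
      congr 1
      ext x
      simp only [mem_inter_iff, mem_setOf_eq]
      constructor
      · rintro ⟨a, b⟩
        exact ⟨b, by linarith⟩
      · rintro ⟨a, b⟩
        exact ⟨by linarith, a⟩
    · rw [indicator_of_notMem (fun h => h1 h.2), hμ,
        Measure.restrict_apply (measurableSet_lt measurable_const hmeas)]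
      have : {a | s < 1 - rho L (zr J a)} ∩ cyl V J = ∅ := by
        ext x
        simp only [mem_inter_iff, mem_setOf_eq, mem_empty_iff_false, iff_false]
        rintro ⟨a, b⟩
        have := r6 _ (zr_nonneg J x b.1)
        linarith
      rw [this, measure_empty]
  rw [setLIntegral_congr_fun measurableSet_Ioi hF, lintegral_indicator measurableSet_Ioo,
    Measure.restrict_restrict measurableSet_Ioo,
    show Ioo (0 : ℝ) 1 ∩ Ioi 0 = Ioo 0 1 from inter_eq_left.2 (fun x hx => hx.1)]
  rw [lintegral_mul_const _ (by fun_prop)]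
  have hint : ∫⁻ s in Ioo (0 : ℝ) 1, ENNReal.ofReal ((1 - s) ^ (N - J.card)) =
      ENNReal.ofReal (1 / ((N - J.card : ℕ) + 1)) := by
    rw [MeasureTheory.restrict_Ioo_eq_restrict_Ioc]
    rw [← ofReal_integral_eq_lintegral_ofReal]
    · congr 1
      rw [← intervalIntegral.integral_of_le (by norm_num)]
      rw [intervalIntegral.integral_comp_sub_left (fun x => x ^ (N - J.card)) 1]
      simp
    · have : IntervalIntegrable (fun s : ℝ => (1 - s) ^ (N - J.card)) volume 0 1 :=
        (by fun_prop : Continuous fun s : ℝ => (1 - s) ^ (N - J.card)).intervalIntegrable _ _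
      exact (intervalIntegrable_iff_integrableOn_Ioc_of_le (by norm_num)).1 this
    · refine (ae_restrict_iff' measurableSet_Ioc).2 (Filter.Eventually.of_forall fun s hs => ?_)
      simp only [Pi.zero_apply]
      exact pow_nonneg (by linarith [hs.2]) _
  rw [hint]
  unfold W
  rw [← ENNReal.ofReal_toReal m2, ← ENNReal.ofReal_mul (by positivity)]
  congr 1
  rw [ENNReal.toReal_ofReal ENNReal.toReal_nonneg, Nat.cast_sub hJ]
  ring

end Pool.Agent.Helper91.KN.LC
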